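import Pool.Agent.Work.MP_2ceb02_lc.Third.Cone

/-!
# Removing the top layers and the choice of the opened set
-/

namespace Pool.Agent.Work.MP_2ceb02_lc

open Finset

section

variable (s : ℕ) (G : ℕ → Finset ℕ)

/-- The vertices from which only paths with fewer than `h` edges start. -/
def WW : ℕ → Finset ℕ
  | 0 => ∅
  | h + 1 => (range s).filter (fun v => ∀ i ∈ range s, v ∈ G i → i ∈ WW h)

variable {s G}

theorem mem_WW_succ {h v : ℕ} : v ∈ WW s G (h + 1) ↔
    v < s ∧ ∀ i ∈ range s, v ∈ G i → i ∈ WW s G h := by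
  rw [WW, mem_filter, mem_range]

theorem WW_mono (h : ℕ) : WW s G h ⊆ WW s G (h + 1) := by
  induction h with
  | zero => exact empty_subset _
  | succ h ih =>
    intro v hv
    rw [mem_WW_succ] at hv ⊢
    exact ⟨hv.1, fun i hi hvi => ih (hv.2 i hi hvi)⟩

theorem WW_sub (h : ℕ) : WW s G h ⊆ range s := by
  cases h with
  | zero => exact empty_subset _
  | succ h => exact filter_subset _ _

theorem upSet_WW (h : ℕ) : UpSet s G (WW s G h) := by
  intro i hi a ha haW
  obtain ⟨h1, h2⟩ := (mem_VV s _).1 hi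
  cases h with
  | zero => exact absurd haW (notMem_empty _)
  | succ h =>
    rw [mem_WW_succ] at haW
    exact h2 (WW_mono h (haW.2 i (mem_range.2 h1) ha))

theorem sinks (h : ℕ) : ((VV s (WW s G h)).filter (fun v => dg s G (WW s G h) v = 0)).card ≤
    (WW s G (h + 1)).card - (WW s G h).card := by
  classical
  rw [← Finset.card_sdiff_of_subset (WW_mono h)]
  apply Finset.card_le_card
  intro v hv
  obtain ⟨h1, h2⟩ := mem_filter.1 hv
  obtain ⟨h3, h4⟩ := (mem_VV s _).1 h1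
  rw [mem_sdiff, mem_WW_succ]
  refine ⟨⟨h3, fun i hi hvi => ?_⟩, h4⟩
  by_contra hc
  have := one_le_dg s G (WW s G h) ((mem_VV s _).2 ⟨mem_range.1 hi, hc⟩) hvi
  omega

theorem exists_layer (H : ℕ) (hH : 0 < H) : ∃ h < H,
    H * ((WW s G (h + 1)).card - (WW s G h).card) ≤ s := by
  by_contra hc
  push Not at hc
  have h1 : ∀ K : ℕ, ∑ h ∈ range K, ((WW s G (h + 1)).card - (WW s G h).card) =
      (WW s G K).card := by
    intro K
    induction K with
    | zero => rfl
    | succ K ih =>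
      rw [Finset.sum_range_succ, ih]
      have := Finset.card_le_card (WW_mono (s := s) (G := G) K)
      omega
  have h2 := Finset.sum_le_sum (fun h hh => Nat.succ_le_of_lt (hc h (mem_range.1 hh)))
  rw [Finset.sum_const, card_range, ← Finset.mul_sum, h1, smul_eq_mul] at h2
  have h3 := Nat.le_of_mul_le_mul_left h2 hH
  have h4 := Finset.card_le_card (WW_sub (s := s) (G := G) H)
  rw [card_range] at h4
  omega

theorem layer_bound (hG : ∀ v, ∀ a ∈ G v, a < v) (hc : ∀ v, (G v).card ≤ 2) (T : Finset ℕ)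
    (B h : ℕ) (hB : ∀ v, 1 ≤ dg s G (WW s G h) v → cn G T v ≤ B) (j : ℕ) :
    ∀ h', h' + j = h → ∀ v < s, v ∉ WW s G h' →
      2 + ∑ a ∈ G v, cn G T a ≤ 2 ^ j * (2 + 2 * B) := by
  induction j with
  | zero =>
    intro h' hh v hv hvW
    rw [add_zero] at hh
    rw [hh] at hvW
    have h1 : ∑ a ∈ G v, cn G T a ≤ 2 * B := by
      refine (Finset.sum_le_card_nsmul _ _ B (fun a ha =>
        hB a (one_le_dg s G _ ((mem_VV s _).2 ⟨hv, hvW⟩) ha))).trans ?_
      rw [smul_eq_mul]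
      exact Nat.mul_le_mul_right _ (hc v)
    omega
  | succ j ih =>
    intro h' hh v hv hvW
    have h1 : ∀ a ∈ G v, cn G T a ≤ 2 ^ j * (2 + 2 * B) - 1 := by
      intro a ha
      have has : a < s := (hG v a ha).trans hv
      have h2 : a ∉ WW s G (h' + 1) := by
        intro hcon
        exact hvW ((mem_WW_succ.1 hcon).2 v (mem_range.2 hv) ha)
      have h3 := ih (h' + 1) (by omega) a has h2
      rw [cn_eq hG]
      split_ifs <;> omega
    have h4 : ∑ a ∈ G v, cn G T a ≤ 2 * (2 ^ j * (2 + 2 * B) - 1) := by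
      refine (Finset.sum_le_card_nsmul _ _ _ h1).trans ?_
      rw [smul_eq_mul]
      exact Nat.mul_le_mul_right _ (hc v)
    have h5 : 1 * 2 ≤ 2 ^ j * (2 + 2 * B) :=
      Nat.mul_le_mul (Nat.one_le_two_pow) (by omega)
    have h6 : 2 ^ (j + 1) * (2 + 2 * B) = 2 * (2 ^ j * (2 + 2 * B)) := by ring
    omega

/-- The opened set for a given number `h` of top layers left out. -/
theorem exists_open (hG : ∀ v, ∀ a ∈ G v, a < v) (hc : ∀ v, (G v).card ≤ 2) (k h : ℕ)
    (hk : 1 ≤ k) : ∃ T ⊆ range s,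
      (3 - 3 * (1 / 2 : ℝ) ^ k) * ((T.card : ℝ) - 3 * s / 2 ^ k) ≤
        ((∑ v ∈ VV s (WW s G h), (dg s G (WW s G h) v - 1) : ℕ) : ℝ) ∧
      ∀ v < s, 2 + ∑ a ∈ G v, cn G T a ≤ 2 ^ h * (2 + 2 * C2 k (2 ^ k) (2 ^ k)) := by
  classical
  set U := WW s G h with hUdef
  have hU : UpSet s G U := upSet_WW h
  set δ : ℝ := (1 / 2) ^ k with hδ
  have hℓ : 0 < 2 ^ k := by positivity
  obtain ⟨r, hr, hr1⟩ := exists_residue (ℓ := 2 ^ k) (VV s U)
    (fun v => 1 - δ ≤ psi s G U δ v ∧ psi s G U δ v < 2 - 2 * δ) (t1 s G U δ) hℓ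
  obtain ⟨r', hr', hr2⟩ := exists_residue (ℓ := 2 ^ k) (VV s U)
    (fun v => 2 - 2 * δ ≤ psi s G U δ v) (t2 s G U δ) hℓ
  have c2 := hr1 (R2 s G U δ (2 ^ k) r) (fun v => mem_R2)
  have c3 := hr2 (R3 s G U δ (2 ^ k) r') (fun v => mem_R3)
  have c1 := card_R1 (Λ := 2 ^ k) (δ := δ) hG hU
  have c0 := card_S0 (δ := δ) hG hU
  have cV : (VV s U).card ≤ s := by
    have : VV s U ⊆ range s := filter_subset _ _
    simpa using Finset.card_le_card this
  refine ⟨S0 s G U δ ∪ R1 s G U δ (2 ^ k) ∪ R2 s G U δ (2 ^ k) r ∪ R3 s G U δ (2 ^ k) r',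
    ?_, ?_, ?_⟩
  · intro v hv
    simp only [mem_union] at hv
    rw [mem_range]
    rcases hv with ((hv | hv) | hv) | hv
    · exact ((mem_VV s _).1 (mem_S0.1 hv).1).1
    · exact ((mem_VV s _).1 (mem_R1.1 hv).1).1
    · exact ((mem_VV s _).1 (mem_R2.1 hv).1).1
    · exact ((mem_VV s _).1 (mem_R3.1 hv).1).1
  · have h1 : (S0 s G U δ ∪ R1 s G U δ (2 ^ k) ∪ R2 s G U δ (2 ^ k) r ∪
        R3 s G U δ (2 ^ k) r').card ≤ (S0 s G U δ).card + (R1 s G U δ (2 ^ k)).card +
        (R2 s G U δ (2 ^ k) r).card + (R3 s G U δ (2 ^ k) r').card := by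
      refine (card_union_le _ _).trans (Nat.add_le_add_right ?_ _)
      refine (card_union_le _ _).trans (Nat.add_le_add_right ?_ _)
      exact card_union_le _ _
    have hp : (0 : ℝ) < 2 ^ k := by positivity
    have h2 : ∀ A : Finset ℕ, 2 ^ k * A.card ≤ (VV s U).card → (A.card : ℝ) ≤ s / 2 ^ k := by
      intro A hA
      rw [le_div_iff₀ hp]
      have : 2 ^ k * A.card ≤ s := hA.trans cV
      have h3 : ((2 ^ k * A.card : ℕ) : ℝ) ≤ s := by exact_mod_cast this
      push_cast at h3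
      linarith
    have d1 := h2 _ c1
    have d2 := h2 _ c2
    have d3 := h2 _ c3
    have h4 : ((S0 s G U δ ∪ R1 s G U δ (2 ^ k) ∪ R2 s G U δ (2 ^ k) r ∪
        R3 s G U δ (2 ^ k) r').card : ℝ) ≤ (S0 s G U δ).card + (R1 s G U δ (2 ^ k)).card +
        (R2 s G U δ (2 ^ k) r).card + (R3 s G U δ (2 ^ k) r').card := by
      exact_mod_cast h1
    have hδ1 : δ ≤ 1 := by rw [hδ]; exact pow_le_one₀ (by norm_num) (by norm_num)
    have h5 : (3 : ℝ) * s / 2 ^ k = s / 2 ^ k + s / 2 ^ k + s / 2 ^ k := by ring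
    push_cast
    refine le_trans ?_ c0
    apply mul_le_mul_of_nonneg_left _ (by linarith)
    rw [h5]
    linarith
  · intro v hv
    refine layer_bound hG hc _ (C2 k (2 ^ k) (2 ^ k)) h ?_ h 0 (by omega) v hv
      (notMem_empty _)
    intro w hw
    refine cn_all (s := s) (U := U) (δ := δ) hG hU hc k r r' hk rfl hr hr' _ ?_ ?_ ?_ ?_ w hw
    · intro x hx; simp only [mem_union]; exact Or.inl (Or.inl (Or.inl hx))
    · intro x hx; simp only [mem_union]; exact Or.inl (Or.inl (Or.inr hx))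
    · intro x hx; simp only [mem_union]; exact Or.inl (Or.inr hx)
    · intro x hx; simp only [mem_union]; exact Or.inr hx

end

end Pool.Agent.Work.MP_2ceb02_lc
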