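import Pool.Agent.Work.MP_2ceb02_lc.Cone
import Pool.Agent.Work.MP_2ceb02_lc.Third.Layers

/-!
# The opened set of a circuit
-/

namespace Pool.Agent.Work.MP_2ceb02_lc

open Finset

namespace Circuit

variable {n m s : ℕ} (C : Circuit n m s)

/-- The node `i` is a gate. -/
def IsGate (i : Fin s) : Prop := ∀ j, C.node i ≠ Node.input j

/-- The number of gates which read the node `i`. -/
noncomputable def fanout (i : Fin s) : ℕ := by
  classical
  exact (univ.filter (fun j => C.Pred j i)).card

/-- The excess of the fan-out: the sum over the gates `i` of the number of gates which read `i`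
minus one (zero if no gate reads `i`). -/
noncomputable def excess : ℕ := by
  classical
  exact ∑ i, if C.IsGate i then C.fanout i - 1 else 0

/-- The gates read by a node. -/
noncomputable def CG (v : ℕ) : Finset ℕ := by
  classical
  exact (univ.filter (fun i : Fin s => C.IsGate i ∧ ∃ h : v < s, C.Pred ⟨v, h⟩ i)).image Fin.val

theorem mem_CG {v a : ℕ} : a ∈ C.CG v ↔ ∃ ha : a < s, ∃ hv : v < s,
    C.IsGate ⟨a, ha⟩ ∧ C.Pred ⟨v, hv⟩ ⟨a, ha⟩ := by
  classical
  unfold CG
  rw [mem_image]
  constructor
  · rintro ⟨i, hi, rfl⟩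
    obtain ⟨h1, hv, h2⟩ := (mem_filter.1 hi).2
    exact ⟨i.2, hv, h1, h2⟩
  · rintro ⟨ha, hv, h1, h2⟩
    exact ⟨⟨a, ha⟩, mem_filter.2 ⟨mem_univ _, h1, hv, h2⟩, rfl⟩

theorem Pred_lt {i a : Fin s} (h : C.Pred i a) : a < i := by
  obtain ⟨k, hk, pred, op, _, b, hb⟩ := h
  have := (pred b).2
  rw [Fin.lt_def]
  omega

theorem CG_lt (v : ℕ) : ∀ a ∈ C.CG v, a < v := by
  intro a ha
  obtain ⟨_, _, _, h⟩ := C.mem_CG.1 ha
  exact C.Pred_lt h

/-- The distinct predecessors of a gate. -/
noncomputable def preds {i k : ℕ} (hi : i < s) (pred : Fin k → Fin i) : Finset (Fin s) :=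
  univ.image (fun b => (⟨pred b, (pred b).2.trans hi⟩ : Fin s))

theorem card_preds {i k : ℕ} (hi : i < s) (pred : Fin k → Fin i) :
    (preds hi pred).card ≤ k := by
  unfold preds
  exact card_image_le.trans (by simp)

theorem mem_preds {i k : ℕ} (hi : i < s) (hk : k ≤ 2) (pred : Fin k → Fin i)
    (op : (Fin k → ZMod 2) → ZMod 2) (h : C.node ⟨i, hi⟩ = Node.gate k hk pred op) (a : Fin s) :
    a ∈ preds hi pred ↔ C.Pred ⟨i, hi⟩ a := by
  unfold preds
  rw [mem_image]
  constructor
  · rintro ⟨b, _, rfl⟩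
    exact ⟨k, hk, pred, op, h, b, rfl⟩
  · rintro ⟨k', hk', pred', op', h', b, hb⟩
    rw [h] at h'
    cases h'
    exact ⟨b, mem_univ _, Fin.ext hb⟩

theorem card_CG (v : ℕ) : (C.CG v).card ≤ 2 := by
  classical
  by_cases hv : v < s
  · rcases hn : C.node ⟨v, hv⟩ with j | ⟨k, hk, pred, op⟩
    · have : C.CG v = ∅ := by
        rw [eq_empty_iff_forall_notMem]
        intro a ha
        obtain ⟨_, _, _, k, hk, pred, op, h, _⟩ := C.mem_CG.1 ha
        rw [hn] at h
        cases h
      rw [this]; simp
    · have h1 : C.CG v ⊆ (preds hv pred).image Fin.val := by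
        intro a ha
        obtain ⟨ha', _, _, h⟩ := C.mem_CG.1 ha
        exact mem_image.2 ⟨⟨a, ha'⟩, (C.mem_preds hv hk pred op hn _).2 h, rfl⟩
      exact (Finset.card_le_card h1).trans (card_image_le.trans ((card_preds hv pred).trans hk))
  · have : C.CG v = ∅ := by
      rw [eq_empty_iff_forall_notMem]
      intro a ha
      obtain ⟨_, h, _⟩ := C.mem_CG.1 ha
      exact hv h
    rw [this]; simp

/-- The nodes of `T`. -/
noncomputable def toS (T : Finset ℕ) : Finset (Fin s) := by
  classical
  exact univ.filter (fun i => (i : ℕ) ∈ T)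

theorem mem_toS {T : Finset ℕ} {i : Fin s} : i ∈ toS (s := s) T ↔ (i : ℕ) ∈ T := by
  classical
  unfold toS
  rw [mem_filter]
  exact ⟨fun h => h.2, fun h => ⟨mem_univ _, h⟩⟩

theorem card_toS (T : Finset ℕ) : (toS (s := s) T).card ≤ T.card := by
  classical
  apply Finset.card_le_card_of_injOn (fun i : Fin s => (i : ℕ))
  · intro i hi
    exact mem_toS.1 hi
  · intro i _ j _ h
    exact Fin.ext h

theorem card_leaves (T : Finset ℕ) (i : Fin s) :
    (C.leaves (toS T) i).card ≤ 2 + ∑ a ∈ C.CG i, cn C.CG T a := by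
  classical
  obtain ⟨i, hi⟩ := i
  induction i using Nat.strong_induction_on with
  | _ i ih =>
    rw [leaves]
    split
    · next j hj =>
      rw [card_singleton]
      omega
    · next k hk pred op hj =>
      have e : (univ : Finset (Fin k)).biUnion (fun a =>
          if (⟨pred a, (pred a).2.trans hi⟩ : Fin s) ∈ toS T
          then {Sum.inr ⟨pred a, (pred a).2.trans hi⟩}
          else C.leaves (toS T) ⟨pred a, (pred a).2.trans hi⟩) =
          (preds hi pred).biUnion (fun p => if p ∈ toS T then {Sum.inr p}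
            else C.leaves (toS T) p) := by
        unfold preds
        rw [image_biUnion]
      rw [e]
      refine card_biUnion_le.trans ?_
      have h1 : ∀ p ∈ preds hi pred, (if p ∈ toS T then ({Sum.inr p} : Finset (Fin n ⊕ Fin s))
          else C.leaves (toS T) p).card ≤ 1 + if C.IsGate p then cn C.CG T p else 0 := by
        intro p hp
        have hlt : p < ⟨i, hi⟩ := C.Pred_lt ((C.mem_preds hi hk pred op hj p).1 hp)
        by_cases hpT : p ∈ toS T
        · rw [if_pos hpT, card_singleton]
          omega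
        · rw [if_neg hpT]
          by_cases hg : C.IsGate p
          · rw [if_pos hg, cn_eq C.CG_lt, if_neg (fun h => hpT (mem_toS.2 h))]
            have h3 : (C.leaves (toS T) p).card ≤ 2 + ∑ a ∈ C.CG p, cn C.CG T a := ih p hlt p.2
            omega
          · unfold IsGate at hg
            push Not at hg
            obtain ⟨j, hj'⟩ := hg
            rw [leaves, hj', card_singleton]
            omega
      refine (Finset.sum_le_sum h1).trans ?_
      rw [Finset.sum_add_distrib, ← Finset.sum_filter, ← Finset.card_eq_sum_ones]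
      have h2 : ∑ p ∈ (preds hi pred).filter (fun p => C.IsGate p), cn C.CG T p =
          ∑ a ∈ C.CG i, cn C.CG T a := by
        apply Finset.sum_nbij (fun p : Fin s => (p : ℕ))
        · intro p hp
          obtain ⟨h3, h4⟩ := mem_filter.1 hp
          exact C.mem_CG.2 ⟨p.2, hi, h4, (C.mem_preds hi hk pred op hj p).1 h3⟩
        · intro p _ q _ h
          exact Fin.ext h
        · intro a ha
          obtain ⟨h3, h4, h5, h6⟩ := C.mem_CG.1 ha
          exact ⟨⟨a, h3⟩, mem_filter.2 ⟨(C.mem_preds hi hk pred op hj _).2 h6, h5⟩, rfl⟩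
        · intro p _
          rfl
      rw [h2]
      have h3 := (card_preds hi pred).trans hk
      exact Nat.add_le_add_right h3 _

theorem excess_eq : ∑ v ∈ VV s (WW s C.CG 0), (dg s C.CG (WW s C.CG 0) v - 1) = C.excess := by
  classical
  have h0 : VV s (WW s C.CG 0) = range s := by
    ext v
    rw [mem_VV, mem_range]
    exact ⟨fun h => h.1, fun h => ⟨h, notMem_empty _⟩⟩
  rw [h0, Finset.sum_range]
  unfold excess
  refine Finset.sum_congr rfl fun i _ => ?_
  unfold dg
  rw [h0]
  by_cases hg : C.IsGate i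
  · rw [if_pos hg]
    congr 1
    unfold fanout
    apply Finset.card_nbij' (fun v => if h : v < s then (⟨v, h⟩ : Fin s) else i) (fun j => (j : ℕ))
    · intro v hv
      obtain ⟨h1, h2⟩ := mem_filter.1 hv
      obtain ⟨_, h3, _, h4⟩ := C.mem_CG.1 h2
      simp only [dif_pos h3]
      exact mem_filter.2 ⟨mem_univ _, h4⟩
    · intro j hj
      exact mem_filter.2 ⟨mem_range.2 j.2, C.mem_CG.2 ⟨i.2, j.2, hg, (mem_filter.1 hj).2⟩⟩
    · intro v hv
      have := mem_range.1 (mem_filter.1 hv).1
      simp only [dif_pos this]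
    · intro j _
      simp only [dif_pos j.2]
  · rw [if_neg hg]
    have : ((range s).filter (fun j => (i : ℕ) ∈ C.CG j)) = ∅ := by
      rw [eq_empty_iff_forall_notMem]
      intro v hv
      obtain ⟨_, _, h3, _⟩ := C.mem_CG.1 (mem_filter.1 hv).2
      exact hg h3
    rw [this]
    rfl

end Circuit

end Pool.Agent.Work.MP_2ceb02_lc
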