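import Pool.Agent.Work.MP_2ceb02_lc.Third.Cuts

/-!
# The unopened regions are small
-/

namespace Pool.Agent.Work.MP_2ceb02_lc

open Finset

section

variable {s : ℕ} {G : ℕ → Finset ℕ} {U : Finset ℕ} {δ : ℝ} {Λ ℓ : ℕ}

/-- Vertices of small potential have small regions. -/
theorem cn_small (hG : ∀ v, ∀ a ∈ G v, a < v) (hU : UpSet s G U) (hc : ∀ v, (G v).card ≤ 2)
    (T : Finset ℕ) (hS : S0 s G U δ ⊆ T) (hR : R1 s G U δ Λ ⊆ T) (v : ℕ) :
    1 ≤ dg s G U v → ∀ j : ℕ, psi s G U δ v < 1 - (1 / 2) ^ (j + 1) →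
      cn G T v ≤ zt s G U δ Λ v + j * (2 * Λ + 1) := by
  induction v using Nat.strong_induction_on with
  | _ v ih =>
    intro hd j hj
    by_cases hT : v ∈ T
    · rw [cn_eq hG, if_pos hT]; exact Nat.zero_le _
    have hS' : v ∉ S0 s G U δ := fun h => hT (hS h)
    have hR' : v ∉ R1 s G U δ Λ := fun h => hT (hR h)
    have hV := mem_VV_of_dg hG hU hd
    have hX0 : 0 ≤ XX s G U δ v := XX_nonneg hG v
    have hpos : (0 : ℝ) < (1 / 2) ^ (j + 1) := by positivity
    rw [psi_of_not_mem hG hU hd hS'] at hj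
    rw [cn_eq hG, if_neg hT]
    -- the predecessors
    have key : ∀ i : ℕ, XX s G U δ v < 1 - (1 / 2) ^ (i + 1) →
        ∑ a ∈ G v, cn G T a ≤ ∑ a ∈ G v, zt s G U δ Λ a + i * (2 * Λ + 1) := by
      intro i hi
      have hpi : (0 : ℝ) < (1 / 2) ^ (i + 1) := by positivity
      apply sum_pos_le (δ := δ) hG (by linarith)
      intro a ha
      have hda := one_le_dg s G U hV ha
      split_ifs with h
      · exact ih a (hG v a ha) hda i ((psi_le_XX hG ha).trans_lt hi)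
      · have h0 : psi s G U δ a = 0 := le_antisymm (not_lt.1 h) (psi_nonneg hG a)
        have := ih a (hG v a ha) hda 0 (by rw [h0]; norm_num)
        simpa using this
    rcases Nat.lt_or_ge 1 (dg s G U v) with h2 | h2
    · have hdR : (2 : ℝ) ≤ dg s G U v := by exact_mod_cast h2
      have h3 : (1 / 2 : ℝ) ^ (j + 1) < (1 - XX s G U δ v) / dg s G U v := by linarith
      rw [lt_div_iff₀ (by linarith)] at h3
      have h4 : (1 / 2 : ℝ) ^ j ≤ (1 / 2) ^ (j + 1) * dg s G U v := by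
        rw [pow_succ]
        have : (0 : ℝ) < (1 / 2) ^ j := by positivity
        nlinarith
      rcases j with _ | i
      · rw [pow_zero] at h4
        linarith
      · have h5 := key i (by linarith)
        have h6 : ∑ a ∈ G v, zt s G U δ Λ a ≤ 2 * Λ := by
          refine (Finset.sum_le_card_nsmul _ _ Λ (fun a _ => zt_le hG a)).trans ?_
          rw [smul_eq_mul]
          exact Nat.mul_le_mul_right _ (hc v)
        have h7 : (i + 1) * (2 * Λ + 1) = i * (2 * Λ + 1) + (2 * Λ + 1) := by ring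
        omega
    · have hd1 : dg s G U v = 1 := le_antisymm h2 hd
      rw [hd1] at hj
      simp only [Nat.cast_one, div_one, sub_sub_cancel] at hj
      have h5 := key j hj
      have h6 : 1 + ∑ a ∈ G v, zt s G U δ Λ a ≤ Λ := by
        by_contra hcon
        exact hR' (mem_R1.2 ⟨hV, hd1, hS', by omega⟩)
      rw [zt_eq hG v, if_pos ⟨hd1, hS', h6⟩]
      omega

theorem mod_succ_of_ne {x ℓ : ℕ} (hℓ : 0 < ℓ) (h : (x + 1) % ℓ ≠ 0) : x % ℓ + 1 = (x + 1) % ℓ := by
  have h1 : x % ℓ < ℓ := Nat.mod_lt _ hℓ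
  rcases Nat.lt_or_ge (x % ℓ + 1) ℓ with h2 | h2
  · have : (x + 1) % ℓ = (x % ℓ + 1) % ℓ := by rw [Nat.mod_add_mod]
    rw [this, Nat.mod_eq_of_lt h2]
  · exfalso
    apply h
    have : (x + 1) % ℓ = (x % ℓ + 1) % ℓ := by rw [Nat.mod_add_mod]
    rw [this, show x % ℓ + 1 = ℓ by omega, Nat.mod_self]

theorem shift_ne {t r ℓ : ℕ} (hr : r < ℓ) (h : t % ℓ ≠ r) : (t + (ℓ - r)) % ℓ ≠ 0 := by
  intro h0
  apply h
  have h1 : (t + (ℓ - r)) % ℓ = (t % ℓ + (ℓ - r)) % ℓ := by rw [Nat.mod_add_mod]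
  rw [h1] at h0
  have h2 : t % ℓ < ℓ := Nat.mod_lt _ (by omega)
  obtain ⟨q, hq⟩ := Nat.dvd_of_mod_eq_zero h0
  have hq1 : q = 1 := by
    rcases Nat.lt_or_ge q 1 with hq0 | hq0
    · have : q = 0 := by omega
      rw [this] at hq; omega
    · by_contra hne
      have : 2 ≤ q := by omega
      have := Nat.mul_le_mul_left ℓ this
      omega
  rw [hq1] at hq
  omega

/-- Chains of vertices of a class in which every vertex has at most one predecessor. -/
theorem cn_chain (hG : ∀ v, ∀ a ∈ G v, a < v) (hc : ∀ v, (G v).card ≤ 2)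
    (T : Finset ℕ) (P Q : ℕ → Prop) [DecidablePred P] (t : ℕ → ℕ) (C r : ℕ) (hr : r < ℓ)
    (ht : ∀ v, t v = if P v then 1 + ∑ a ∈ G v, t a else 0)
    (hone : ∀ v, Q v → P v → v ∉ T → ∀ a ∈ G v, ∀ b ∈ G v, P a → P b → a = b)
    (hT : ∀ v, Q v → P v → t v % ℓ = r → v ∈ T)
    (hQ : ∀ v, Q v → ∀ a ∈ G v, Q a)
    (hC : ∀ v, Q v → P v → v ∉ T → ∀ a ∈ G v, ¬ P a → cn G T a ≤ C) (v : ℕ) :
    Q v → P v → cn G T v ≤ ((t v + (ℓ - r)) % ℓ) * (1 + 2 * C) := by
  induction v using Nat.strong_induction_on with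
  | _ v ih =>
    intro hQv hPv
    by_cases hTv : v ∈ T
    · rw [cn_eq hG, if_pos hTv]; exact Nat.zero_le _
    have hne : (t v + (ℓ - r)) % ℓ ≠ 0 := shift_ne hr (fun h => hTv (hT v hQv hPv h))
    rw [cn_eq hG, if_neg hTv]
    by_cases hex : ∃ a ∈ G v, P a
    · obtain ⟨a, ha, hPa⟩ := hex
      have h1 : t v = 1 + t a := by
        rw [ht v, if_pos hPv, Finset.sum_eq_single_of_mem a ha]
        intro b hb hba
        rw [ht b, if_neg (fun hPb => hba (hone v hQv hPv hTv b hb a ha hPb hPa))]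
      have h2 : ∑ b ∈ G v, cn G T b = cn G T a + ∑ b ∈ (G v).erase a, cn G T b :=
        (Finset.add_sum_erase _ _ ha).symm
      have h3 : ∑ b ∈ (G v).erase a, cn G T b ≤ C := by
        refine (Finset.sum_le_card_nsmul _ _ C (fun b hb => ?_)).trans ?_
        · have hb' := mem_erase.1 hb
          exact hC v hQv hPv hTv b hb'.2
            (fun hPb => hb'.1 (hone v hQv hPv hTv b hb'.2 a ha hPb hPa))
        · rw [smul_eq_mul, Finset.card_erase_of_mem ha]
          have := hc v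
          have h4 : (G v).card - 1 ≤ 1 := by omega
          have := Nat.mul_le_mul_right C h4
          omega
      have h4 := ih a (hG v a ha) (hQ v hQv a ha) hPa
      have h5 : t v + (ℓ - r) = (t a + (ℓ - r)) + 1 := by omega
      rw [h5] at hne ⊢
      have h6 := mod_succ_of_ne (by omega) hne
      rw [← h6, add_mul, one_mul]
      omega
    · push Not at hex
      have h3 : ∑ b ∈ G v, cn G T b ≤ 2 * C := by
        refine (Finset.sum_le_card_nsmul _ _ C (fun b hb =>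
          hC v hQv hPv hTv b hb (hex b hb))).trans ?_
        rw [smul_eq_mul]
        exact Nat.mul_le_mul_right C (hc v)
      have h4 : 1 * (1 + 2 * C) ≤ ((t v + (ℓ - r)) % ℓ) * (1 + 2 * C) :=
        Nat.mul_le_mul_right _ (Nat.one_le_iff_ne_zero.2 hne)
      omega

/-- The bound for the vertices of small potential. -/
def Cs (k Λ : ℕ) : ℕ := Λ + (k - 1) * (2 * Λ + 1)

/-- The bound for the vertices of middle potential. -/
def C1 (k Λ ℓ : ℕ) : ℕ := ℓ * (1 + 2 * Cs k Λ)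

/-- The bound for all vertices. -/
def C2 (k Λ ℓ : ℕ) : ℕ := ℓ * (1 + 2 * C1 k Λ ℓ)

theorem XX_lt (hG : ∀ v, ∀ a ∈ G v, a < v) (hU : UpSet s G U) (hδ : 0 ≤ δ) {v : ℕ}
    (hd : 1 ≤ dg s G U v) (hS : v ∉ S0 s G U δ) (h : psi s G U δ v < 2 - 2 * δ) :
    XX s G U δ v < 2 - 2 * δ := by
  have h1 := not_mem_S0 hG hU hd hS
  rcases Nat.lt_or_ge 1 (dg s G U v) with h2 | h2
  · have hdR : (2 : ℝ) ≤ dg s G U v := by exact_mod_cast h2
    linarith
  · have hd1 : dg s G U v = 1 := le_antisymm h2 hd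
    rw [psi_of_not_mem hG hU hd hS, hd1] at h
    simpa using h

theorem sum_two_le (hG : ∀ v, ∀ a ∈ G v, a < v) {v a b : ℕ} (ha : a ∈ G v) (hb : b ∈ G v)
    (hab : a ≠ b) : psi s G U δ a + psi s G U δ b ≤ XX s G U δ v := by
  rw [← Finset.sum_pair hab]
  exact Finset.sum_le_sum_of_subset_of_nonneg
    (by intro x hx; rcases mem_insert.1 hx with rfl | hx
        · exact ha
        · rw [mem_singleton.1 hx]; exact hb) (fun x _ _ => psi_nonneg hG x)

theorem cn_mid (hG : ∀ v, ∀ a ∈ G v, a < v) (hU : UpSet s G U) (hc : ∀ v, (G v).card ≤ 2)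
    (k r : ℕ) (hk : 1 ≤ k) (hδ : δ = (1 / 2) ^ k) (hr : r < ℓ)
    (T : Finset ℕ) (hS : S0 s G U δ ⊆ T) (hR : R1 s G U δ Λ ⊆ T) (hR2 : R2 s G U δ ℓ r ⊆ T)
    (v : ℕ) (hd : 1 ≤ dg s G U v) (h : psi s G U δ v < 2 - 2 * δ) :
    cn G T v ≤ C1 k Λ ℓ := by
  classical
  have hδ0 : 0 < δ := by rw [hδ]; positivity
  have hsmall : ∀ w, 1 ≤ dg s G U w → psi s G U δ w < 1 - δ → cn G T w ≤ Cs k Λ := by
    intro w hdw hw
    have h1 := cn_small (Λ := Λ) hG hU hc T hS hR w hdw (k - 1)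
      (by rw [Nat.sub_add_cancel hk, ← hδ]; exact hw)
    have h2 := zt_le (s := s) (U := U) (δ := δ) (Λ := Λ) hG w
    unfold Cs
    omega
  by_cases hv : psi s G U δ v < 1 - δ
  · refine (hsmall v hd hv).trans ?_
    unfold C1
    have : 1 * (1 + 2 * Cs k Λ) ≤ ℓ * (1 + 2 * Cs k Λ) := Nat.mul_le_mul_right _ (by omega)
    omega
  · have h1 := cn_chain (ℓ := ℓ) hG hc T
      (fun v => 1 - δ ≤ psi s G U δ v ∧ psi s G U δ v < 2 - 2 * δ)
      (fun v => 1 ≤ dg s G U v) (t1 s G U δ) (Cs k Λ) r hr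
      (fun v => t1_eq hG v)
      (by
        intro w hdw hw hwT a ha b hb hPa hPb
        by_contra hab
        have h2 := sum_two_le (s := s) (U := U) (δ := δ) hG ha hb hab
        have h3 := XX_lt hG hU hδ0.le hdw (fun h => hwT (hS h)) hw.2
        have h4 := hPa.1
        have h5 := hPb.1
        linarith)
      (by
        intro w hdw hw hwr
        exact hR2 (mem_R2.2 ⟨mem_VV_of_dg hG hU hdw, hw, hwr⟩))
      (by
        intro w hdw a ha
        exact one_le_dg s G U (mem_VV_of_dg hG hU hdw) ha)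
      (by
        intro w hdw hw hwT a ha hPa
        apply hsmall a (one_le_dg s G U (mem_VV_of_dg hG hU hdw) ha)
        by_contra hcon
        apply hPa
        refine ⟨not_lt.1 hcon, ?_⟩
        exact (psi_le_XX hG ha).trans_lt
          (XX_lt hG hU hδ0.le hdw (fun h => hwT (hS h)) hw.2))
      v hd ⟨not_lt.1 hv, h⟩
    refine h1.trans ?_
    exact Nat.mul_le_mul_right _ (Nat.mod_lt _ (by omega)).le

theorem cn_all (hG : ∀ v, ∀ a ∈ G v, a < v) (hU : UpSet s G U) (hc : ∀ v, (G v).card ≤ 2)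
    (k r r' : ℕ) (hk : 1 ≤ k) (hδ : δ = (1 / 2) ^ k) (hr : r < ℓ) (hr' : r' < ℓ)
    (T : Finset ℕ) (hS : S0 s G U δ ⊆ T) (hR : R1 s G U δ Λ ⊆ T) (hR2 : R2 s G U δ ℓ r ⊆ T)
    (hR3 : R3 s G U δ ℓ r' ⊆ T) (v : ℕ) (hd : 1 ≤ dg s G U v) :
    cn G T v ≤ C2 k Λ ℓ := by
  classical
  have hδ0 : 0 < δ := by rw [hδ]; positivity
  have hδ1 : δ ≤ 1 := by rw [hδ]; exact pow_le_one₀ (by norm_num) (by norm_num)
  have hmid := cn_mid (Λ := Λ) hG hU hc k r hk hδ hr T hS hR hR2
  by_cases hv : psi s G U δ v < 2 - 2 * δ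
  · refine (hmid v hd hv).trans ?_
    unfold C2
    have : 1 * (1 + 2 * C1 k Λ ℓ) ≤ ℓ * (1 + 2 * C1 k Λ ℓ) := Nat.mul_le_mul_right _ (by omega)
    omega
  · have h1 := cn_chain (ℓ := ℓ) hG hc T
      (fun v => 2 - 2 * δ ≤ psi s G U δ v)
      (fun v => 1 ≤ dg s G U v) (t2 s G U δ) (C1 k Λ ℓ) r' hr'
      (fun v => t2_eq hG v)
      (by
        intro w hdw hw hwT a ha b hb hPa hPb
        by_contra hab
        have h2 := sum_two_le (s := s) (U := U) (δ := δ) hG ha hb hab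
        have h3 := not_mem_S0 hG hU hdw (fun h => hwT (hS h))
        have h4 : (1 : ℝ) ≤ dg s G U w := by exact_mod_cast hdw
        linarith)
      (by
        intro w hdw hw hwr
        exact hR3 (mem_R3.2 ⟨mem_VV_of_dg hG hU hdw, hw, hwr⟩))
      (by
        intro w hdw a ha
        exact one_le_dg s G U (mem_VV_of_dg hG hU hdw) ha)
      (by
        intro w hdw hw hwT a ha hPa
        exact hmid a (one_le_dg s G U (mem_VV_of_dg hG hU hdw) ha) (not_le.1 hPa))
      v hd (not_lt.1 hv)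
    refine h1.trans ?_
    exact Nat.mul_le_mul_right _ (Nat.mod_lt _ (by omega)).le

end

end Pool.Agent.Work.MP_2ceb02_lc
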