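import Pool.Agent.Work.MP_2ceb02_lc.Third.Rec

/-!
# The cuts and the sizes of the unopened regions
-/

namespace Pool.Agent.Work.MP_2ceb02_lc

open Finset

section

variable {s : ℕ} {G : ℕ → Finset ℕ} {U : Finset ℕ}

/-- The excess out-degree is at most the number of vertices plus the number of sinks. -/
theorem sum_excess (hG : ∀ v, ∀ a ∈ G v, a < v) (hU : UpSet s G U) (hc : ∀ v, (G v).card ≤ 2) :
    ∑ v ∈ VV s U, (dg s G U v - 1) ≤
      (VV s U).card + ((VV s U).filter (fun v => dg s G U v = 0)).card := by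
  have h1 := sum_edges hG hU (fun _ => (1 : ℕ))
  simp only [Finset.sum_const, smul_eq_mul, mul_one] at h1
  have h2 : ∑ i ∈ VV s U, (G i).card ≤ 2 * (VV s U).card := by
    have := Finset.sum_le_card_nsmul (VV s U) (fun i => (G i).card) 2 (fun i _ => hc i)
    rw [smul_eq_mul] at this
    omega
  have h3 : ∑ v ∈ VV s U, (dg s G U v - 1) + (VV s U).card =
      ∑ v ∈ VV s U, dg s G U v + ((VV s U).filter (fun v => dg s G U v = 0)).card := by
    rw [Finset.card_filter, Finset.card_eq_sum_ones, ← Finset.sum_add_distrib,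
      ← Finset.sum_add_distrib]
    refine Finset.sum_congr rfl fun v _ => ?_
    split_ifs with h <;> omega
  omega

end

section

variable (s : ℕ) (G : ℕ → Finset ℕ) (U : Finset ℕ) (δ : ℝ) (Λ ℓ : ℕ)

/-- The truncated sizes of the trees of vertices of out-degree one. -/
noncomputable def zt : ℕ → ℕ := by
  classical
  exact rc G (fun v z => if dg s G U v = 1 ∧ v ∉ S0 s G U δ ∧ 1 + z ≤ Λ then 1 + z else 0)

/-- The opened vertices of these trees. -/
noncomputable def R1 : Finset ℕ := by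
  classical
  exact (VV s U).filter (fun v => dg s G U v = 1 ∧ v ∉ S0 s G U δ ∧
    Λ < 1 + ∑ a ∈ G v, zt s G U δ Λ a)

/-- The depths among the vertices of middle potential. -/
noncomputable def t1 : ℕ → ℕ := by
  classical
  exact rc G (fun v t => if 1 - δ ≤ psi s G U δ v ∧ psi s G U δ v < 2 - 2 * δ then 1 + t else 0)

/-- The depths among the vertices of high potential. -/
noncomputable def t2 : ℕ → ℕ := by
  classical
  exact rc G (fun v t => if 2 - 2 * δ ≤ psi s G U δ v then 1 + t else 0)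

/-- The opened vertices of middle potential. -/
noncomputable def R2 (r : ℕ) : Finset ℕ := by
  classical
  exact (VV s U).filter (fun v => (1 - δ ≤ psi s G U δ v ∧ psi s G U δ v < 2 - 2 * δ) ∧
    t1 s G U δ v % ℓ = r)

/-- The opened vertices of high potential. -/
noncomputable def R3 (r : ℕ) : Finset ℕ := by
  classical
  exact (VV s U).filter (fun v => 2 - 2 * δ ≤ psi s G U δ v ∧ t2 s G U δ v % ℓ = r)

/-- The size of the unopened region below an unopened vertex. -/
noncomputable def cn (G : ℕ → Finset ℕ) (T : Finset ℕ) : ℕ → ℕ := by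
  classical
  exact rc G (fun v c => if v ∈ T then 0 else 1 + c)

end

section

variable {s : ℕ} {G : ℕ → Finset ℕ} {U : Finset ℕ} {δ : ℝ} {Λ ℓ : ℕ}

theorem zt_eq (hG : ∀ v, ∀ a ∈ G v, a < v) (v : ℕ) : zt s G U δ Λ v =
    if dg s G U v = 1 ∧ v ∉ S0 s G U δ ∧ 1 + ∑ a ∈ G v, zt s G U δ Λ a ≤ Λ
      then 1 + ∑ a ∈ G v, zt s G U δ Λ a else 0 := by
  classical
  conv_lhs => unfold zt
  rw [rc_eq G _ hG]
  unfold zt
  congr

theorem t1_eq (hG : ∀ v, ∀ a ∈ G v, a < v) (v : ℕ) : t1 s G U δ v =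
    if 1 - δ ≤ psi s G U δ v ∧ psi s G U δ v < 2 - 2 * δ
      then 1 + ∑ a ∈ G v, t1 s G U δ a else 0 := by
  classical
  conv_lhs => unfold t1
  rw [rc_eq G _ hG]
  unfold t1
  congr

theorem t2_eq (hG : ∀ v, ∀ a ∈ G v, a < v) (v : ℕ) : t2 s G U δ v =
    if 2 - 2 * δ ≤ psi s G U δ v then 1 + ∑ a ∈ G v, t2 s G U δ a else 0 := by
  classical
  conv_lhs => unfold t2
  rw [rc_eq G _ hG]
  unfold t2
  congr

theorem cn_eq (hG : ∀ v, ∀ a ∈ G v, a < v) (T : Finset ℕ) (v : ℕ) : cn G T v =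
    if v ∈ T then 0 else 1 + ∑ a ∈ G v, cn G T a := by
  classical
  conv_lhs => unfold cn
  rw [rc_eq G _ hG]
  unfold cn
  congr

theorem mem_R1 {v : ℕ} : v ∈ R1 s G U δ Λ ↔ v ∈ VV s U ∧ dg s G U v = 1 ∧ v ∉ S0 s G U δ ∧
    Λ < 1 + ∑ a ∈ G v, zt s G U δ Λ a := by
  classical
  unfold R1
  rw [mem_filter]

theorem mem_R2 {r v : ℕ} : v ∈ R2 s G U δ ℓ r ↔ v ∈ VV s U ∧
    (1 - δ ≤ psi s G U δ v ∧ psi s G U δ v < 2 - 2 * δ) ∧ t1 s G U δ v % ℓ = r := by
  classical
  unfold R2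
  rw [mem_filter]

theorem mem_R3 {r v : ℕ} : v ∈ R3 s G U δ ℓ r ↔ v ∈ VV s U ∧
    2 - 2 * δ ≤ psi s G U δ v ∧ t2 s G U δ v % ℓ = r := by
  classical
  unfold R3
  rw [mem_filter]

theorem zt_le (hG : ∀ v, ∀ a ∈ G v, a < v) (v : ℕ) : zt s G U δ Λ v ≤ Λ := by
  rw [zt_eq hG]
  split_ifs with h
  · exact h.2.2
  · exact Nat.zero_le _

theorem card_R1 (hG : ∀ v, ∀ a ∈ G v, a < v) (hU : UpSet s G U) :
    Λ * (R1 s G U δ Λ).card ≤ (VV s U).card := by
  classical
  have h1 : ∀ v ∈ VV s U, zt s G U δ Λ v + Λ * (if v ∈ R1 s G U δ Λ then 1 else 0) ≤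
      1 + ∑ a ∈ G v, zt s G U δ Λ a := by
    intro v hv
    by_cases hR : v ∈ R1 s G U δ Λ
    · obtain ⟨_, _, _, h4⟩ := mem_R1.1 hR
      rw [if_pos hR, zt_eq hG, if_neg (by rintro ⟨_, _, h⟩; omega)]
      omega
    · rw [if_neg hR, mul_zero, add_zero, zt_eq hG]
      split_ifs with h
      · exact le_rfl
      · exact Nat.zero_le _
  have h2 := Finset.sum_le_sum h1
  rw [Finset.sum_add_distrib, Finset.sum_add_distrib, sum_edges hG hU, ← Finset.mul_sum,
    ← Finset.card_eq_sum_ones] at h2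
  have h3 : ∑ a ∈ VV s U, dg s G U a • zt s G U δ Λ a = ∑ a ∈ VV s U, zt s G U δ Λ a := by
    refine Finset.sum_congr rfl fun a _ => ?_
    rcases eq_or_ne (dg s G U a) 1 with h | h
    · rw [h, one_smul]
    · rw [zt_eq hG, if_neg (by rintro ⟨h', _⟩; exact h h'), smul_zero]
  have h4 : ∑ v ∈ VV s U, (if v ∈ R1 s G U δ Λ then 1 else 0) = (R1 s G U δ Λ).card := by
    rw [← Finset.sum_filter, Finset.sum_const, smul_eq_mul, mul_one]
    congr 1
    ext v
    rw [mem_filter]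
    exact ⟨fun h => h.2, fun h => ⟨(mem_R1.1 h).1, h⟩⟩
  rw [h3, h4] at h2
  omega

/-- A residue class with few vertices. -/
theorem exists_residue (V : Finset ℕ) (p : ℕ → Prop) (t : ℕ → ℕ) (hℓ : 0 < ℓ) :
    ∃ r < ℓ, ∀ A : Finset ℕ, (∀ v, v ∈ A ↔ v ∈ V ∧ p v ∧ t v % ℓ = r) → ℓ * A.card ≤ V.card := by
  classical
  by_contra hc
  push Not at hc
  have h1 : ∀ r ∈ range ℓ, V.card + 1 ≤
      ℓ * (V.filter (fun v => p v ∧ t v % ℓ = r)).card := by
    intro r hr
    obtain ⟨A, hA, hlt⟩ := hc r (mem_range.1 hr)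
    have : A = V.filter (fun v => p v ∧ t v % ℓ = r) := by
      ext v; rw [hA, mem_filter]
    rw [← this]
    omega
  have h2 := Finset.sum_le_sum h1
  rw [Finset.sum_const, card_range, ← Finset.mul_sum, smul_eq_mul] at h2
  have h3 : ∑ r ∈ range ℓ, (V.filter (fun v => p v ∧ t v % ℓ = r)).card ≤ V.card := by
    rw [← Finset.card_biUnion]
    · apply Finset.card_le_card
      intro v hv
      obtain ⟨r, _, hv⟩ := mem_biUnion.1 hv
      exact (mem_filter.1 hv).1
    · intro r _ r' _ hne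
      rw [Function.onFun, Finset.disjoint_left]
      intro v hv hv'
      exact hne ((mem_filter.1 hv).2.2.symm.trans (mem_filter.1 hv').2.2)
  have h4 := Nat.mul_le_mul_left ℓ h3
  have h5 := h2.trans h4
  have := Nat.le_of_mul_le_mul_left h5 hℓ
  omega

/-- At most one predecessor has a positive potential if the potentials sum to less than one. -/
theorem sum_pos_le (hG : ∀ v, ∀ a ∈ G v, a < v) {v : ℕ} (h : XX s G U δ v < 1) (f g : ℕ → ℕ)
    (K : ℕ) (hf : ∀ a ∈ G v, f a ≤ g a + if 0 < psi s G U δ a then K else 0) :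
    ∑ a ∈ G v, f a ≤ ∑ a ∈ G v, g a + K := by
  classical
  refine (Finset.sum_le_sum hf).trans ?_
  rw [Finset.sum_add_distrib, ← Finset.sum_filter, Finset.sum_const, smul_eq_mul]
  have h1 : ((G v).filter (fun a => 0 < psi s G U δ a)).card ≤ 1 := by
    by_contra hn
    have h2 : 2 ≤ ((G v).filter (fun a => 0 < psi s G U δ a)).card := by omega
    have h3 : ∑ a ∈ (G v).filter (fun a => 0 < psi s G U δ a), psi s G U δ a ≤
        XX s G U δ v :=
      Finset.sum_le_sum_of_subset_of_nonneg (filter_subset _ _)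
        (fun a _ _ => psi_nonneg hG a)
    have h4 : ∑ a ∈ (G v).filter (fun a => 0 < psi s G U δ a), (1 / 2 : ℝ) ≤
        ∑ a ∈ (G v).filter (fun a => 0 < psi s G U δ a), psi s G U δ a :=
      Finset.sum_le_sum fun a ha => psi_half hG a (mem_filter.1 ha).2
    rw [Finset.sum_const, nsmul_eq_mul] at h4
    have h5 : (2 : ℝ) ≤ ((G v).filter (fun a => 0 < psi s G U δ a)).card := by
      exact_mod_cast h2
    linarith
  have h2 := Nat.mul_le_mul_right K h1
  omega

end

end Pool.Agent.Work.MP_2ceb02_lc
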