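import Pool.Agent.Work.MP_2ceb02_lc.Final
import Pool.Agent.Work.MP_2ceb02_lc.Third.Circ

/-!
# Every circuit: one third of a bit per gate and party
-/

namespace Pool.Agent.Work.MP_2ceb02_lc

open Finset

theorem C2_le (k : ℕ) (hk : 1 ≤ k) :
    2 ^ k * (2 + 2 * C2 k (2 ^ k) (2 ^ k)) ≤ 2 ^ (5 * (k + 1)) := by
  have hq : k ≤ 2 ^ k := (Nat.lt_two_pow_self).le
  set q : ℕ := 2 ^ k with hqdef
  have hq1 : 2 ≤ q := by
    calc 2 = 2 ^ 1 := rfl
      _ ≤ 2 ^ k := Nat.pow_le_pow_right (by norm_num) hk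
  have h1 : Cs k q ≤ 3 * q ^ 2 := by
    unfold Cs
    obtain ⟨j, rfl⟩ : ∃ j, k = j + 1 := ⟨k - 1, by omega⟩
    rw [Nat.add_sub_cancel]
    have : j * (2 * q + 1) ≤ (q - 1) * (3 * q) := Nat.mul_le_mul (by omega) (by omega)
    have h2 : (q - 1) * (3 * q) + 3 * q = 3 * q ^ 2 := by
      obtain ⟨p, hp⟩ : ∃ p, q = p + 1 := ⟨q - 1, by omega⟩
      rw [hp, Nat.add_sub_cancel]; ring
    omega
  have hq2 : 1 ≤ q ^ 2 := Nat.one_le_pow _ _ (by omega)
  have hq3 : 1 ≤ q ^ 3 := Nat.one_le_pow _ _ (by omega)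
  have hq4 : 1 ≤ q ^ 4 := Nat.one_le_pow _ _ (by omega)
  have h3 : C1 k q q ≤ 7 * q ^ 3 := by
    unfold C1
    calc q * (1 + 2 * Cs k q) ≤ q * (7 * q ^ 2) := Nat.mul_le_mul_left _ (by omega)
      _ = 7 * q ^ 3 := by ring
  have h4 : C2 k q q ≤ 15 * q ^ 4 := by
    unfold C2
    calc q * (1 + 2 * C1 k q q) ≤ q * (15 * q ^ 3) := Nat.mul_le_mul_left _ (by omega)
      _ = 15 * q ^ 4 := by ring
  calc q * (2 + 2 * C2 k q q) ≤ q * (32 * q ^ 4) := Nat.mul_le_mul_left _ (by omega)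
    _ = 2 ^ 5 * q ^ 5 := by ring
    _ = 2 ^ (5 * (k + 1)) := by rw [hqdef, ← pow_mul, ← pow_add]; congr 1; ring

/-- The error term. -/
theorem error_le (k : ℕ) (hk : 1 ≤ k) (t M s' : ℝ) (hs : 0 ≤ s') (hM : M ≤ 2 * s')
    (h : (3 - 3 * (1 / 2 : ℝ) ^ k) * (t - 3 * s' / 2 ^ k) ≤ M) :
    t ≤ M / 3 + 13 / 6 * (s' / k) := by
  have hkR : (1 : ℝ) ≤ k := by exact_mod_cast hk
  have hd0 : (0 : ℝ) < (1 / 2) ^ k := by positivity
  have hd1 : (1 / 2 : ℝ) ^ k ≤ 1 / 2 := by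
    calc (1 / 2 : ℝ) ^ k ≤ (1 / 2) ^ 1 := pow_le_pow_of_le_one (by norm_num) (by norm_num) hk
      _ = 1 / 2 := by norm_num
  have hkd : (k : ℝ) * (1 / 2) ^ k ≤ 1 / 2 := by
    obtain ⟨j, rfl⟩ : ∃ j, k = j + 1 := ⟨k - 1, by omega⟩
    have h1 : ((j + 1 : ℕ) : ℝ) ≤ 2 ^ j := by
      have : j + 1 ≤ 2 ^ j := Nat.lt_two_pow_self
      exact_mod_cast this
    have h2 : (1 / 2 : ℝ) ^ (j + 1) = 1 / 2 * (1 / 2 ^ j) := by
      rw [pow_succ, one_div_pow]; ring
    rw [h2]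
    have hp : (0 : ℝ) < 2 ^ j := by positivity
    have h3 : ((j + 1 : ℕ) : ℝ) * (1 / 2 ^ j) ≤ 1 := by
      rw [mul_one_div, div_le_one hp]; exact h1
    linarith
  have e : 3 * s' / 2 ^ k = 3 * s' * (1 / 2) ^ k := by rw [one_div_pow]; ring
  rw [e] at h
  set δ : ℝ := (1 / 2) ^ k with hδ
  have h1 : t - 3 * s' * δ ≤ M / (3 - 3 * δ) := by
    rw [le_div_iff₀ (by linarith)]; linarith
  have h2 : M / (3 - 3 * δ) ≤ M / 3 + 4 / 3 * δ * s' := by
    rw [div_le_iff₀ (by linarith)]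
    have h3 : 0 ≤ δ * s' := by positivity
    nlinarith
  have h4 : δ ≤ 1 / 2 / k := by rw [le_div_iff₀ (by linarith)]; linarith
  have h5 : δ * s' ≤ 1 / 2 / k * s' := mul_le_mul_of_nonneg_right h4 hs
  have h6 : 1 / 2 / (k : ℝ) * s' = 1 / 2 * (s' / k) := by ring
  rw [h6] at h5
  linarith

namespace Circuit

variable {n m s : ℕ} (C : Circuit n m s)

theorem excess_le : C.excess ≤ 2 * s := by
  have h := sum_excess (s := s) (G := C.CG) (U := WW s C.CG 0) C.CG_lt (upSet_WW 0) C.card_CG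
  rw [C.excess_eq] at h
  have h1 : (VV s (WW s C.CG 0)).card ≤ s := by
    have : VV s (WW s C.CG 0) ⊆ range s := filter_subset _ _
    simpa using Finset.card_le_card this
  have h2 := Finset.card_filter_le (VV s (WW s C.CG 0))
    (fun v => dg s C.CG (WW s C.CG 0) v = 0)
  omega

/-- A small set of nodes whose opening leaves small regions. -/
theorem exists_opened (k : ℕ) (hk : 1 ≤ k) : ∃ S : Finset (Fin s),
    (S.card : ℝ) ≤ min (s : ℝ) C.excess / 3 + 5 / 2 * (s / k) ∧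
      ∀ i, (C.leaves S i).card ≤ 2 ^ (5 * (k + 1)) := by
  have hkR : (1 : ℝ) ≤ k := by exact_mod_cast hk
  have hsR : (0 : ℝ) ≤ s := Nat.cast_nonneg _
  have hD0 : (0 : ℝ) ≤ C.excess := Nat.cast_nonneg _
  -- the opened set
  have key : ∃ T : Finset ℕ, ∃ h : ℕ, h ≤ k ∧
      (T.card : ℝ) ≤ min (s : ℝ) C.excess / 3 + 5 / 2 * (s / k) ∧
      ∀ v < s, 2 + ∑ a ∈ C.CG v, cn C.CG T a ≤ 2 ^ h * (2 + 2 * C2 k (2 ^ k) (2 ^ k)) := by
    have hsk : (0 : ℝ) ≤ s / k := by positivity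
    rcases le_total (C.excess : ℝ) s with hle | hle
    · obtain ⟨T, _, h1, h2⟩ := exists_open (s := s) (G := C.CG) C.CG_lt C.card_CG k 0 hk
      rw [C.excess_eq] at h1
      refine ⟨T, 0, Nat.zero_le _, ?_, h2⟩
      have := error_le k hk T.card C.excess s hsR (by linarith) h1
      rw [min_eq_right hle]
      linarith
    · obtain ⟨h, hh, h0⟩ := exists_layer (s := s) (G := C.CG) k hk
      obtain ⟨T, _, h1, h2⟩ := exists_open (s := s) (G := C.CG) C.CG_lt C.card_CG k h hk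
      refine ⟨T, h, hh.le, ?_, h2⟩
      have h3 := sum_excess (s := s) (G := C.CG) (U := WW s C.CG h) C.CG_lt (upSet_WW h) C.card_CG
      have h4 := sinks (s := s) (G := C.CG) h
      have h5 : (VV s (WW s C.CG h)).card ≤ s := by
        have : VV s (WW s C.CG h) ⊆ range s := filter_subset _ _
        simpa using Finset.card_le_card this
      set w := (WW s C.CG (h + 1)).card - (WW s C.CG h).card with hw
      have h6 : ∑ v ∈ VV s (WW s C.CG h), (dg s C.CG (WW s C.CG h) v - 1) ≤ s + w := by omega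
      have h7 : (w : ℝ) ≤ s / k := by
        rw [le_div_iff₀ (by linarith)]
        have : ((k * w : ℕ) : ℝ) ≤ s := by exact_mod_cast h0
        push_cast at this
        linarith
      have h8 : ((∑ v ∈ VV s (WW s C.CG h), (dg s C.CG (WW s C.CG h) v - 1) : ℕ) : ℝ) ≤
          s + s / k := by
        have : ((∑ v ∈ VV s (WW s C.CG h), (dg s C.CG (WW s C.CG h) v - 1) : ℕ) : ℝ) ≤
          ((s + w : ℕ) : ℝ) := by exact_mod_cast h6
        push_cast at this ⊢
        linarith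
      have h9 : (s : ℝ) / k ≤ s := div_le_self hsR hkR
      have := error_le k hk T.card (s + s / k) s hsR (by linarith) (h1.trans h8)
      rw [min_eq_left hle]
      linarith
  obtain ⟨T, h, hh, hT, hl⟩ := key
  have hcn : 2 ^ h * (2 + 2 * C2 k (2 ^ k) (2 ^ k)) ≤ 2 ^ (5 * (k + 1)) :=
    (Nat.mul_le_mul_right _ (Nat.pow_le_pow_right (by norm_num) hh)).trans (C2_le k hk)
  have hc : ((toS (s := s) T).card : ℝ) ≤ T.card := by exact_mod_cast card_toS T
  exact ⟨toS T, hc.trans hT, fun i => (C.card_leaves T i).trans ((hl i i.2).trans hcn)⟩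

/-- The protocol for a given `k`. -/
theorem prot_third_k {N : ℕ} (hN : 0 < N) (own : Fin n → Fin N) (k : ℕ) (hk : 1 ≤ k) :
    ∃ P : Protocol N n m own, P.Correct C.eval ∧ P.Secure C.eval ∧
      (P.comm : ℝ) ≤ n + N * (m + (min (s : ℝ) C.excess / 3 + 5 / 2 * (s / k))) ∧
      P.StorageLe (n + (s + m) * 2 ^ (2 ^ (5 * (k + 1)))) := by
  obtain ⟨S, hS, hl⟩ := C.exists_opened k hk
  obtain ⟨P, h1, h2, h3, h4⟩ := C.opened hN own S (2 ^ (5 * (k + 1)))
    (fun v _ => hl v) (fun k => hl _)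
  refine ⟨P, h1, h2, ?_, h4.mono ?_⟩
  · rw [h3]
    push_cast
    have : (0 : ℝ) ≤ N := Nat.cast_nonneg _
    nlinarith
  · have hSs : S.card ≤ s := by simpa using card_le_univ S
    have := Nat.mul_le_mul_right (2 ^ (2 ^ (5 * (k + 1)))) (Nat.add_le_add_right hSs m)
    omega

theorem prot_third_large {N : ℕ} (hN : 0 < N) (own : Fin n → Fin N) (k : ℕ) (hk : 1 ≤ k)
    (hks : 2 ^ (5 * (k + 1)) ≤ Nat.log 2 s) :
    C.Prot N own (min (s : ℝ) C.excess / 3 + 5 / 2 * (s / k)) := by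
  have hs0 : 1 ≤ s := by
    by_contra hc
    have : s = 0 := by omega
    rw [this] at hks
    simp at hks
  obtain ⟨P, h1, h2, h3, h4⟩ := C.prot_third_k hN own k hk
  refine ⟨P, h1, h2, h3, h4.mono ?_⟩
  have hp : 2 ^ (2 ^ (5 * (k + 1))) ≤ s :=
    (Nat.pow_le_pow_right (by norm_num) hks).trans (Nat.pow_log_le_self 2 (by omega))
  have h5 : (s + m) * 2 ^ (2 ^ (5 * (k + 1))) ≤ (s + m) * s := Nat.mul_le_mul_left _ hp
  have h6 : (s + m) * s ≤ 4 * (s + m) * s := by nlinarith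
  omega

theorem logb_aux (s : ℕ) (hs : 25 < Real.logb 2 (Real.logb 2 s)) : ∃ k : ℕ, 1 ≤ k ∧
    2 ^ (5 * (k + 1)) ≤ Nat.log 2 s ∧ Real.logb 2 (Real.logb 2 s) / 10 ≤ k := by
  set L := Nat.log 2 s with hL
  set y := Real.logb 2 s with hy
  have hs1 : 1 ≤ s := by
    by_contra hc
    have : s = 0 := by omega
    rw [this] at hy
    simp at hy
    rw [hy] at hs
    simp at hs
    linarith
  have hsR : (1 : ℝ) ≤ s := by exact_mod_cast hs1
  have hy0 : 0 < y := by
    by_contra hc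
    have h0 : y = 0 := le_antisymm (not_lt.1 hc) (Real.logb_nonneg (by norm_num) hsR)
    rw [h0] at hs
    simp at hs
    linarith
  have hy2 : (2 : ℝ) < y := by
    have h1 : (2 : ℝ) ^ (1 : ℝ) < y := by
      rw [← Real.lt_logb_iff_rpow_lt (by norm_num) hy0]
      linarith
    simpa using h1
  have hL1 : y < L + 1 := by
    rw [hy, Real.logb_lt_iff_lt_rpow (by norm_num) (by linarith)]
    have h1 : s < 2 ^ (L + 1) := Nat.lt_pow_succ_log_self (by norm_num) s
    have h2 : ((2 : ℝ) ^ ((L : ℝ) + 1)) = ((2 ^ (L + 1) : ℕ) : ℝ) := by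
      push_cast
      rw [← Real.rpow_natCast]
      push_cast
      rfl
    rw [h2]
    exact_mod_cast h1
  have hLR : y / 2 < L := by linarith
  set lam := Nat.log 2 L with hlam
  have hL0 : (0 : ℝ) < L := by linarith
  have h3 : Real.logb 2 y - 1 < lam + 1 := by
    have h4 : Real.logb 2 (y / 2) < lam + 1 := by
      rw [Real.logb_lt_iff_lt_rpow (by norm_num) (by linarith)]
      have h1 : L < 2 ^ (lam + 1) := Nat.lt_pow_succ_log_self (by norm_num) L
      have h2 : ((2 : ℝ) ^ ((lam : ℝ) + 1)) = ((2 ^ (lam + 1) : ℕ) : ℝ) := by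
        push_cast
        rw [← Real.rpow_natCast]
        push_cast
        rfl
      rw [h2]
      refine hLR.trans ?_
      exact_mod_cast h1
    rw [Real.logb_div (by linarith) (by norm_num), Real.logb_self_eq_one (by norm_num)] at h4
    exact h4
  have hlam23 : 23 < lam := by
    have : (23 : ℝ) < lam := by linarith
    exact_mod_cast this
  refine ⟨lam / 5 - 1, by omega, ?_, ?_⟩
  · calc 2 ^ (5 * (lam / 5 - 1 + 1)) ≤ 2 ^ lam := Nat.pow_le_pow_right (by norm_num) (by omega)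
      _ ≤ L := Nat.pow_log_le_self 2 (by
        intro h0
        rw [h0] at hL0
        simp at hL0)
  · have h5 : lam ≤ 5 * (lam / 5 - 1) + 9 := by omega
    have h6 : (lam : ℝ) ≤ 5 * ((lam / 5 - 1 : ℕ) : ℝ) + 9 := by exact_mod_cast h5
    linarith

/-- Every circuit has a perfectly secure protocol with one third of a bit per gate and party. -/
theorem prot_third {N : ℕ} (hN : 0 < N) (own : Fin n → Fin N) (hs : 3 ≤ s) :
    C.Prot N own (min (s : ℝ) C.excess / 3 + 25 * s / Real.logb 2 (Real.logb 2 s)) := by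
  have hsR : (3 : ℝ) ≤ s := by exact_mod_cast hs
  have hD0 : (0 : ℝ) ≤ C.excess := Nat.cast_nonneg _
  have hmin : 0 ≤ min (s : ℝ) C.excess := le_min (by linarith) hD0
  have hy1 : 1 < Real.logb 2 s := by
    rw [Real.lt_logb_iff_rpow_lt (by norm_num) (by linarith)]
    norm_num
    linarith
  have hl0 : 0 < Real.logb 2 (Real.logb 2 s) := Real.logb_pos (by norm_num) hy1
  rcases le_or_gt (Real.logb 2 (Real.logb 2 s)) 25 with h | h
  · refine Prot.mono C (C.prot_univ hN own (by omega)) ?_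
    have : (s : ℝ) ≤ 25 * s / Real.logb 2 (Real.logb 2 s) := by
      rw [le_div_iff₀ hl0]
      nlinarith
    linarith
  · obtain ⟨k, hk, h1, h2⟩ := logb_aux s h
    refine Prot.mono C (C.prot_third_large hN own k hk h1) ?_
    have hkR : (1 : ℝ) ≤ k := by exact_mod_cast hk
    have : 5 / 2 * ((s : ℝ) / k) ≤ 25 * s / Real.logb 2 (Real.logb 2 s) := by
      rw [le_div_iff₀ hl0, mul_div_assoc', div_mul_eq_mul_div, div_le_iff₀ (by linarith)]
      nlinarith
    linarith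

end Circuit

end Pool.Agent.Work.MP_2ceb02_lc
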