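import Mathlib

/-!
# Opening one third of the vertices of a directed acyclic graph of in-degree two

`G v` is the set of predecessors of the vertex `v` (all smaller than `v`). `U` is a set of
vertices which are not looked at; the predecessors of a vertex outside `U` are outside `U`.
-/

namespace Pool.Agent.Work.MP_2ceb02_lc

open Finset

/-- Recursion along a directed acyclic graph. -/
noncomputable def rc {M : Type*} [AddCommMonoid M] (G : ℕ → Finset ℕ) (F : ℕ → M → M) (v : ℕ) : M :=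
  F v (∑ a ∈ G v, if _h : a < v then rc G F a else 0)
termination_by v

theorem rc_eq {M : Type*} [AddCommMonoid M] (G : ℕ → Finset ℕ) (F : ℕ → M → M)
    (hG : ∀ v, ∀ a ∈ G v, a < v) (v : ℕ) : rc G F v = F v (∑ a ∈ G v, rc G F a) := by
  rw [rc]
  congr 1
  refine Finset.sum_congr rfl fun a ha => ?_
  rw [dif_pos (hG v a ha)]

section

variable (s : ℕ) (G : ℕ → Finset ℕ) (U : Finset ℕ)

/-- The vertices which are looked at. -/
def VV : Finset ℕ := (range s).filter (fun i => i ∉ U)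

/-- The out-degree outside `U`. -/
def dg (v : ℕ) : ℕ := ((VV s U).filter (fun i => v ∈ G i)).card

theorem mem_VV {i : ℕ} : i ∈ VV s U ↔ i < s ∧ i ∉ U := by
  unfold VV; rw [mem_filter, mem_range]

theorem one_le_dg {i v : ℕ} (hi : i ∈ VV s U) (hv : v ∈ G i) : 1 ≤ dg s G U v := by
  unfold dg
  exact Finset.card_pos.2 ⟨i, mem_filter.2 ⟨hi, hv⟩⟩

theorem exists_of_dg {v : ℕ} (h : 1 ≤ dg s G U v) : ∃ i ∈ VV s U, v ∈ G i := by
  unfold dg at h
  obtain ⟨i, hi⟩ := Finset.card_pos.1 h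
  exact ⟨i, (mem_filter.1 hi).1, (mem_filter.1 hi).2⟩

/-- Predecessors of vertices outside `U` are outside `U`. -/
def UpSet : Prop := ∀ i ∈ VV s U, ∀ a ∈ G i, a ∉ U

variable {s G U}

theorem mem_VV_of_dg (hG : ∀ v, ∀ a ∈ G v, a < v) (hU : UpSet s G U) {v : ℕ}
    (h : 1 ≤ dg s G U v) : v ∈ VV s U := by
  obtain ⟨i, hi, hv⟩ := exists_of_dg s G U h
  exact (mem_VV s U).2 ⟨(hG i v hv).trans ((mem_VV s U).1 hi).1, hU i hi v hv⟩

/-- Double counting of the edges. -/
theorem sum_edges {M : Type*} [AddCommMonoid M] (hG : ∀ v, ∀ a ∈ G v, a < v)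
    (hU : UpSet s G U) (f : ℕ → M) :
    ∑ i ∈ VV s U, ∑ a ∈ G i, f a = ∑ a ∈ VV s U, dg s G U a • f a := by
  have h1 : ∀ i ∈ VV s U, ∑ a ∈ G i, f a = ∑ a ∈ VV s U, if a ∈ G i then f a else 0 := by
    intro i hi
    rw [← Finset.sum_filter]
    refine Finset.sum_congr ?_ fun _ _ => rfl
    ext a
    rw [mem_filter, mem_VV]
    constructor
    · intro ha
      exact ⟨⟨(hG i a ha).trans ((mem_VV s U).1 hi).1, hU i hi a ha⟩, ha⟩
    · exact fun h => h.2
  rw [Finset.sum_congr rfl h1, Finset.sum_comm]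
  refine Finset.sum_congr rfl fun a _ => ?_
  rw [← Finset.sum_filter, Finset.sum_const]
  rfl

end

section

variable (s : ℕ) (G : ℕ → Finset ℕ) (U : Finset ℕ) (δ : ℝ)

/-- The potential of a vertex. -/
noncomputable def psi : ℕ → ℝ :=
  rc G (fun v X => if 1 ≤ dg s G U v ∧ X + dg s G U v < 4 - 3 * δ
    then 1 - (1 - X) / dg s G U v else 0)

/-- The sum of the potentials of the predecessors. -/
noncomputable def XX (v : ℕ) : ℝ := ∑ a ∈ G v, psi s G U δ a

/-- The opened vertices. -/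
noncomputable def S0 : Finset ℕ := by
  classical
  exact (VV s U).filter (fun v => 1 ≤ dg s G U v ∧ 4 - 3 * δ ≤ XX s G U δ v + dg s G U v)

variable {s G U δ}

theorem psi_eq (hG : ∀ v, ∀ a ∈ G v, a < v) (v : ℕ) :
    psi s G U δ v = if 1 ≤ dg s G U v ∧ XX s G U δ v + dg s G U v < 4 - 3 * δ
      then 1 - (1 - XX s G U δ v) / dg s G U v else 0 := by
  unfold psi XX
  rw [rc_eq G _ hG]
  rfl

theorem psi_nonneg (hG : ∀ v, ∀ a ∈ G v, a < v) (v : ℕ) : 0 ≤ psi s G U δ v := by
  induction v using Nat.strong_induction_on with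
  | _ v ih =>
    rw [psi_eq hG]
    split_ifs with h
    · have hX : 0 ≤ XX s G U δ v := Finset.sum_nonneg fun a ha => ih a (hG v a ha)
      have hd : (1 : ℝ) ≤ dg s G U v := by exact_mod_cast h.1
      have : (1 - XX s G U δ v) / dg s G U v ≤ 1 := by
        rw [div_le_one (by linarith)]; linarith
      linarith
    · exact le_rfl

theorem XX_nonneg (hG : ∀ v, ∀ a ∈ G v, a < v) (v : ℕ) : 0 ≤ XX s G U δ v :=
  Finset.sum_nonneg fun a _ => psi_nonneg hG a

theorem psi_le_XX (hG : ∀ v, ∀ a ∈ G v, a < v) {v a : ℕ} (ha : a ∈ G v) :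
    psi s G U δ a ≤ XX s G U δ v :=
  Finset.single_le_sum (f := psi s G U δ) (fun b _ => psi_nonneg hG b) ha

theorem psi_half (hG : ∀ v, ∀ a ∈ G v, a < v) (v : ℕ) (h : 0 < psi s G U δ v) :
    1 / 2 ≤ psi s G U δ v := by
  induction v using Nat.strong_induction_on with
  | _ v ih =>
    rw [psi_eq hG] at h ⊢
    split_ifs at h ⊢ with h1
    · have hX : 0 ≤ XX s G U δ v := XX_nonneg hG v
      rcases Nat.lt_or_ge 1 (dg s G U v) with h2 | h2
      · have hd : (2 : ℝ) ≤ dg s G U v := by exact_mod_cast h2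
        have : (1 - XX s G U δ v) / dg s G U v ≤ 1 / 2 := by
          rw [div_le_iff₀ (by linarith)]; linarith
        linarith
      · have hd : dg s G U v = 1 := le_antisymm h2 h1.1
        rw [hd] at h ⊢
        simp only [Nat.cast_one, div_one, sub_sub_cancel] at h ⊢
        have : ∃ a ∈ G v, 0 < psi s G U δ a := by
          by_contra hc
          push Not at hc
          exact absurd h (not_lt.2 (Finset.sum_nonpos fun a ha => hc a ha))
        obtain ⟨a, ha, hpa⟩ := this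
        exact (ih a (hG v a ha) hpa).trans (psi_le_XX hG ha)
    · exact absurd h (lt_irrefl _)

theorem mem_S0 {v : ℕ} : v ∈ S0 s G U δ ↔
    v ∈ VV s U ∧ 1 ≤ dg s G U v ∧ 4 - 3 * δ ≤ XX s G U δ v + dg s G U v := by
  classical
  unfold S0
  rw [mem_filter]

theorem not_mem_S0 (hG : ∀ v, ∀ a ∈ G v, a < v) (hU : UpSet s G U) {v : ℕ}
    (hd : 1 ≤ dg s G U v) (h : v ∉ S0 s G U δ) :
    XX s G U δ v + dg s G U v < 4 - 3 * δ := by
  by_contra hc
  exact h (mem_S0.2 ⟨mem_VV_of_dg hG hU hd, hd, not_lt.1 hc⟩)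

theorem psi_of_not_mem (hG : ∀ v, ∀ a ∈ G v, a < v) (hU : UpSet s G U) {v : ℕ}
    (hd : 1 ≤ dg s G U v) (h : v ∉ S0 s G U δ) :
    psi s G U δ v = 1 - (1 - XX s G U δ v) / dg s G U v := by
  rw [psi_eq hG, if_pos ⟨hd, not_mem_S0 hG hU hd h⟩]

/-- The number of opened vertices. -/
theorem card_S0 (hG : ∀ v, ∀ a ∈ G v, a < v) (hU : UpSet s G U) :
    (3 - 3 * δ) * ((S0 s G U δ).card : ℝ) ≤ ∑ v ∈ VV s U, ((dg s G U v - 1 : ℕ) : ℝ) := by
  classical
  have h1 : ∀ v ∈ VV s U, (dg s G U v : ℝ) * psi s G U δ v ≤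
      XX s G U δ v + ((dg s G U v - 1 : ℕ) : ℝ) -
        (3 - 3 * δ) * (if v ∈ S0 s G U δ then 1 else 0) := by
    intro v hv
    have hX := XX_nonneg (s := s) (U := U) (δ := δ) hG v
    rcases Nat.eq_zero_or_pos (dg s G U v) with h0 | h0
    · have : v ∉ S0 s G U δ := by
        intro h
        have := (mem_S0.1 h).2.1
        omega
      rw [if_neg this, h0]
      simp only [Nat.cast_zero, zero_mul, Nat.zero_sub, mul_zero]
      linarith
    · have hd : (1 : ℝ) ≤ dg s G U v := by exact_mod_cast h0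
      have hd' : ((dg s G U v - 1 : ℕ) : ℝ) = (dg s G U v : ℝ) - 1 := by
        rw [Nat.cast_sub h0, Nat.cast_one]
      rw [hd']
      by_cases hS : v ∈ S0 s G U δ
      · rw [if_pos hS]
        obtain ⟨_, _, h3⟩ := mem_S0.1 hS
        rw [psi_eq hG, if_neg (by rintro ⟨_, h⟩; linarith)]
        linarith
      · rw [if_neg hS, psi_of_not_mem hG hU h0 hS]
        have : (dg s G U v : ℝ) * (1 - (1 - XX s G U δ v) / dg s G U v) =
            dg s G U v - (1 - XX s G U δ v) := by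
          field_simp
        rw [this]
        linarith
  have h2 := Finset.sum_le_sum h1
  rw [Finset.sum_sub_distrib, Finset.sum_add_distrib, ← Finset.mul_sum] at h2
  have h3 : ∑ v ∈ VV s U, (if v ∈ S0 s G U δ then (1 : ℝ) else 0) = (S0 s G U δ).card := by
    rw [← Finset.sum_filter, Finset.sum_const, nsmul_eq_mul, mul_one]
    congr 2
    ext v
    rw [mem_filter]
    exact ⟨fun h => h.2, fun h => ⟨(mem_S0.1 h).1, h⟩⟩
  rw [h3] at h2
  have h4 := sum_edges hG hU (psi s G U δ)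
  simp only [nsmul_eq_mul] at h4
  have h5 : ∑ v ∈ VV s U, XX s G U δ v = ∑ i ∈ VV s U, ∑ a ∈ G i, psi s G U δ a := rfl
  rw [h5, h4] at h2
  linarith

end

end Pool.Agent.Work.MP_2ceb02_lc
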